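import Mathlib

/-! Claim A of helper44's proof of (P3'): P4-free looped graphs with midpoints. -/

namespace Pool.Agent.H43.P3

open Classical

variable {V : Type*}

/-- No induced path on four vertices inside `D` (distinctness is automatic). -/
def NoP4 (A : V → V → Prop) (D : Set V) : Prop :=
  ∀ a ∈ D, ∀ b ∈ D, ∀ c ∈ D, ∀ d ∈ D, A a b → A b c → A c d → ¬ A a c → ¬ A b d → ¬ A a d → False

/-- Midpoints of closed pairs inside `D`. -/
def PairsIn (A : V → V → Prop) (D : Set V) : Prop :=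
  ∀ u ∈ D, ∀ v ∈ D, (A u u ↔ A v v) → ¬ (A u v ↔ A u u) →
    ∃ g ∈ D, ¬ (A g g ↔ A u u) ∧ (A g u ↔ A g g) ∧ (A g v ↔ A g g) ∧
      ∀ y ∈ D, (A u y ↔ A v y) → (A g y ↔ A u y)

/-- Complement (loops included). -/
def Co (A : V → V → Prop) : V → V → Prop := fun x y => ¬ A x y

theorem Co.symm {A : V → V → Prop} (hs : ∀ x y, A x y → A y x) (x y : V) (h : Co A x y) :
    Co A y x := fun h' => h (hs _ _ h')

theorem NoP4.co {A : V → V → Prop} (hs : ∀ x y, A x y → A y x) {D : Set V} (h : NoP4 A D) :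
    NoP4 (Co A) D := by
  intro a ha b hb c hc d hd h1 h2 h3 h4 h5 h6
  unfold Co at *
  have h4' := not_not.mp h4
  have h5' := not_not.mp h5
  have h6' := not_not.mp h6
  exact h b hb d hd a ha c hc h5' (hs _ _ h6') h4' (fun h => h1 (hs _ _ h)) (fun h => h3 (hs _ _ h)) h2

theorem PairsIn.co {A : V → V → Prop} {D : Set V} (h : PairsIn A D) : PairsIn (Co A) D := by
  intro u hu v hv h1 h2
  unfold Co at *
  obtain ⟨g, hg, k1, k2, k3, k4⟩ := h u hu v hv (by tauto) (by tauto)
  refine ⟨g, hg, by tauto, by tauto, by tauto, fun y hy hh => ?_⟩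
  have := k4 y hy (by tauto)
  tauto

theorem NoP4.mono {A : V → V → Prop} {D E : Set V} (h : NoP4 A D) (hE : E ⊆ D) : NoP4 A E :=
  fun a ha b hb c hc d hd => h a (hE ha) b (hE hb) c (hE hc) d (hE hd)

/-- Closed subset: no edges to the rest of `D`. -/
def Closed (A : V → V → Prop) (D K : Set V) : Prop :=
  K ⊆ D ∧ ∀ x ∈ K, ∀ y ∈ D, A x y → y ∈ K

/-- Vertices at distance at most two. -/
def Reach (A : V → V → Prop) (D : Set V) (x : V) : Set V :=
  {z | z ∈ D ∧ (z = x ∨ A x z ∨ ∃ y ∈ D, A x y ∧ A y z)}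

theorem mem_reach_self (A : V → V → Prop) {D : Set V} {x : V} (hx : x ∈ D) : x ∈ Reach A D x :=
  ⟨hx, Or.inl rfl⟩

theorem reach_closed {A : V → V → Prop} (hs : ∀ x y, A x y → A y x) {D : Set V}
    (h4 : NoP4 A D) {x : V} (hx : x ∈ D) : Closed A D (Reach A D x) := by
  refine ⟨fun z hz => hz.1, ?_⟩
  rintro z ⟨hz, hz'⟩ t ht hzt
  refine ⟨ht, ?_⟩
  rcases hz' with rfl | hxz | ⟨y, hy, hxy, hyz⟩
  · exact Or.inr (Or.inl hzt)
  · exact Or.inr (Or.inr ⟨z, hz, hxz, hzt⟩)
  · by_cases h1 : A x z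
    · exact Or.inr (Or.inr ⟨z, hz, h1, hzt⟩)
    by_cases h2 : A y t
    · exact Or.inr (Or.inr ⟨y, hy, hxy, h2⟩)
    by_cases h3 : A x t
    · exact Or.inr (Or.inl h3)
    exact (h4 x hx y hy z hz t ht hxy hyz hzt h1 h2 h3).elim

theorem reach_sub {A : V → V → Prop} {D K : Set V} {x : V} (hK : Closed A D K) (hx : x ∈ K) :
    Reach A D x ⊆ K := by
  rintro z ⟨hz, rfl | h | ⟨y, hy, h1, h2⟩⟩
  · exact hx
  · exact hK.2 x hx z hz h
  · exact hK.2 y (hK.2 x hx y hy h1) z hz h2

theorem Closed.compl {A : V → V → Prop} (hs : ∀ x y, A x y → A y x) {D K : Set V}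
    (hK : Closed A D K) : Closed A D (D \ K) := by
  refine ⟨Set.diff_subset, ?_⟩
  rintro x ⟨hx, hxK⟩ y hy hxy
  exact ⟨hy, fun hyK => hxK (hK.2 y hyK x hx (hs _ _ hxy))⟩

theorem reach_symm {A : V → V → Prop} (hs : ∀ x y, A x y → A y x) {D : Set V}
    (h4 : NoP4 A D) {x u : V} (hx : x ∈ D) (hu : u ∈ Reach A D x) : x ∈ Reach A D u := by
  by_contra hc
  have h1 := (reach_closed hs h4 hu.1).compl hs
  have h2 := reach_sub h1 (x := x) ⟨hx, hc⟩ hu
  exact h2.2 (mem_reach_self A hu.1)

/-- Two vertices of one component are at distance at most two. -/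
theorem reach_trans {A : V → V → Prop} (hs : ∀ x y, A x y → A y x) {D : Set V}
    (h4 : NoP4 A D) {x u v : V} (hx : x ∈ D) (hu : u ∈ Reach A D x) (hv : v ∈ Reach A D x) :
    v ∈ Reach A D u :=
  reach_sub (reach_closed hs h4 hu.1) (reach_symm hs h4 hx hu) hv

theorem reach_pairs {A : V → V → Prop} (hs : ∀ x y, A x y → A y x) {D : Set V}
    (h4 : NoP4 A D) (hp : PairsIn A D) {x : V} (hx : x ∈ D) : PairsIn A (Reach A D x) := by
  intro u hu v hv h1 h2
  obtain ⟨g, hg, k1, k2, k3, k4⟩ := hp u hu.1 v hv.1 h1 h2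
  have hcl := reach_closed hs h4 hx
  refine ⟨g, ?_, k1, k2, k3, fun y hy => k4 y hy.1⟩
  by_cases hl : A u u
  · -- loops 1, not adjacent
    have huv : ¬ A u v := by tauto
    have hvv : A v v := by tauto
    rcases (reach_trans hs h4 hx hu hv).2 with rfl | h | ⟨y, hy, h5, h6⟩
    · exact absurd hl huv
    · exact absurd h huv
    · have h7 : A v y := hs _ _ h6
      have h8 : A g y := (k4 y hy (by tauto)).mpr h5
      exact hcl.2 y (hcl.2 u hu y hy h5) g hg (hs _ _ h8)
  · have : A g u := by tauto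
    exact hcl.2 u hu g hg (hs _ _ this)

/-- Seinsche: a P4-free graph with at least two vertices is separable or co-separable. -/
def Sep (A : V → V → Prop) (D : Set V) : Prop :=
  ∃ S, Closed A D S ∧ S.Nonempty ∧ (D \ S).Nonempty

theorem seinsche_step {A : V → V → Prop} (hs : ∀ x y, A x y → A y x) {D : Set V} {v : V}
    (hv : v ∉ D) (h4 : NoP4 A (insert v D)) (h : Sep A D) :
    Sep A (insert v D) ∨ Sep (Co A) (insert v D) := by
  obtain ⟨S, hS, hSn, hTn⟩ := h
  by_cases hU : ∀ y ∈ D, A v y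
  · -- v is adjacent to everything
    right
    refine ⟨{v} , ⟨by simp, ?_⟩, by simp, ?_⟩
    · rintro x rfl y hy hxy
      rcases hy with rfl | hy
      · rfl
      · exact absurd (hU y hy) hxy
    · obtain ⟨y, hy⟩ := hSn
      exact ⟨y, Or.inr (hS.1 hy), fun h => hv (by rw [Set.mem_singleton_iff] at h; rw [← h]; exact hS.1 hy)⟩
  · left
    push Not at hU
    obtain ⟨y0, hy0, hvy0⟩ := hU
    by_cases hc : ∀ x ∈ D, ∀ y ∈ D, A v x → ¬ A v y → ¬ A x y
    · refine ⟨{y | y ∈ D ∧ ¬ A v y}, ⟨fun y hy => Or.inr hy.1, ?_⟩, ⟨y0, hy0, hvy0⟩, ⟨v, Or.inl rfl, fun h => hv h.1⟩⟩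
      rintro x ⟨hx, hvx⟩ y hy hxy
      rcases hy with rfl | hy
      · exact absurd (hs _ _ hxy) hvx
      · refine ⟨hy, fun hvy => hc y hy x hx hvy hvx (hs _ _ hxy)⟩
    · push Not at hc
      obtain ⟨x, hx, y, hy, hvx, hvy, hxy⟩ := hc
      -- the part not containing x has no neighbour of v
      have key : ∀ T, Closed A D T → x ∉ T → T.Nonempty → Sep A (insert v D) := by
        intro T hT hxT hTne
        have hyT : y ∉ T := fun h => hxT (hT.2 y h x hx (hs _ _ hxy))
        refine ⟨T, ⟨fun z hz => Or.inr (hT.1 hz), ?_⟩, hTne, ⟨v, Or.inl rfl, fun h => hv (hT.1 h)⟩⟩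
        intro w hw z hz hwz
        rcases hz with rfl | hz
        · exfalso
          have hwD := hT.1 hw
          refine h4 w (Or.inr hwD) z (Or.inl rfl) x (Or.inr hx) y (Or.inr hy) hwz hvx hxy ?_ hvy ?_
          · exact fun h => hxT (hT.2 w hw x hx h)
          · exact fun h => hyT (hT.2 w hw y hy h)
        · exact hT.2 w hw z hz hwz
      by_cases hxS : x ∈ S
      · exact key (D \ S) (hS.compl hs) (fun h => h.2 hxS) hTn
      · exact key S hS hxS hSn

theorem co_co (A : V → V → Prop) : Co (Co A) = A := by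
  funext x y; simp [Co]

theorem seinsche {A : V → V → Prop} (hs : ∀ x y, A x y → A y x) (D : Finset V)
    (h4 : NoP4 A (D : Set V)) (h2 : 2 ≤ D.card) : Sep A (D : Set V) ∨ Sep (Co A) (D : Set V) := by
  induction D using Finset.induction_on generalizing A with
  | empty => simp at h2
  | insert v D hv ih =>
    rw [Finset.card_insert_of_notMem hv] at h2
    have hvD : v ∉ (D : Set V) := by simpa using hv
    rw [Finset.coe_insert] at h4 ⊢
    by_cases hD : 2 ≤ D.card
    · rcases ih hs (h4.mono (Set.subset_insert _ _)) hD with h | h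
      · exact seinsche_step hs hvD h4 h
      · have := seinsche_step (A := Co A) (Co.symm hs) hvD (h4.co hs) h
        rw [co_co] at this
        exact this.symm
    · have h1 : D.card = 1 := by omega
      obtain ⟨w, rfl⟩ := Finset.card_eq_one.mp h1
      have hvw : v ≠ w := by simpa using hv
      by_cases hA : A v w
      · right
        refine ⟨{v}, ⟨by simp, ?_⟩, by simp, ⟨w, by simp, by simpa using hvw.symm⟩⟩
        rintro x rfl y hy hxy
        simp only [Finset.coe_singleton, Set.mem_insert_iff, Set.mem_singleton_iff] at hy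
        rcases hy with rfl | rfl
        · rfl
        · exact absurd hA hxy
      · left
        refine ⟨{v}, ⟨by simp, ?_⟩, by simp, ⟨w, by simp, by simpa using hvw.symm⟩⟩
        rintro x rfl y hy hxy
        simp only [Finset.coe_singleton, Set.mem_insert_iff, Set.mem_singleton_iff] at hy
        rcases hy with rfl | rfl
        · rfl
        · exact absurd hxy hA

end Pool.Agent.H43.P3
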