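import Pool.Agent.H43.P3.ClaimA

namespace Pool.Agent.H43.P3

open Classical

variable {V : Type*} [Finite V]

/-- For every `x` with a neighbour (or a loop) in `D` there is a looped vertex `f` adjacent to `x`
whose neighbourhood in `D` is closed (the component of `x`). -/
theorem full_of_component (n : ℕ) : ∀ {A : V → V → Prop} (_ : ∀ x y, A x y → A y x) {D : Set V}
    (_ : D.ncard ≤ n) (_ : NoP4 A D) (_ : PairsIn A D) {x : V} (_ : x ∈ D)
    (_ : ∃ y ∈ D, A x y),
    ∃ f ∈ D, A f f ∧ A f x ∧ ∀ y ∈ D, A f y → ∀ z ∈ D, A y z → A f z := by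
  induction n with
  | zero =>
    intro A hs D hD h4 hp x hx _
    have := (Set.ncard_pos (s := D)).mpr ⟨x, hx⟩
    omega
  | succ n ih =>
    intro A hs D hD h4 hp x hx hxn
    by_cases hK : Reach A D x = D
    · -- connected
      by_cases hc : D.ncard ≤ 1
      · obtain ⟨y, hy, hxy⟩ := hxn
        have hyx : y = x := (Set.ncard_le_one (Set.toFinite D)).mp hc y hy x hx
        subst hyx
        refine ⟨y, hx, hxy, hxy, fun z hz _ w hw _ => ?_⟩
        have : w = y := (Set.ncard_le_one (Set.toFinite D)).mp hc w hw y hx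
        rw [this]; exact hxy
      · have hfin : D.Finite := Set.toFinite D
        have hsein := seinsche hs hfin.toFinset (by rw [Set.Finite.coe_toFinset]; exact h4)
          (by rw [← Set.ncard_eq_toFinset_card D hfin]; omega)
        rw [Set.Finite.coe_toFinset] at hsein
        have hno : ¬ Sep A D := by
          rintro ⟨S, hS, ⟨s, hs'⟩, ⟨t, ht⟩⟩
          by_cases hxS : x ∈ S
          · have h1 := reach_sub hS hxS
            rw [hK] at h1
            exact ht.2 (h1 ht.1)
          · have h1 := reach_sub (hS.compl hs) (x := x) ⟨hx, hxS⟩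
            rw [hK] at h1
            exact (h1 (hS.1 hs')).2 hs'
        obtain ⟨S, hS, ⟨y1, hy1⟩, ⟨y2, hy2⟩⟩ := hsein.resolve_left hno
        have hsc : ∀ x y, Co A x y → Co A y x := Co.symm hs
        have h4c := h4.co hs
        have hpc := hp.co
        -- a full vertex
        suffices hfull : ∃ g ∈ D, ∀ y ∈ D, A g y by
          obtain ⟨g, hg, hg'⟩ := hfull
          exact ⟨g, hg, hg' g hg, hg' x hx, fun _ _ _ z hz _ => hg' z hz⟩
        by_contra hnf
        push Not at hnf
        -- apply the induction hypothesis to the two co-components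
        have step : ∀ (T : Set V), Closed (Co A) D T → (D \ T).Nonempty → ∀ y ∈ T,
            ∃ f ∈ T, Co A f f ∧ ∀ y ∈ D, Co A f y → ∀ z ∈ D, Co A y z → Co A f z := by
          intro T hT hTn y hy
          have hyD := hT.1 hy
          have hRT := reach_sub hT hy
          have hRc := reach_closed hsc h4c hyD
          have hcard : (Reach (Co A) D y).ncard ≤ n := by
            have : (Reach (Co A) D y).ncard < D.ncard := by
              apply Set.ncard_lt_ncard _ hfin
              refine ⟨hRc.1, fun h => ?_⟩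
              obtain ⟨t, ht⟩ := hTn
              exact ht.2 (hRT (h ht.1))
            omega
          obtain ⟨z, hz, hyz⟩ := hnf y hyD
          obtain ⟨f, hf, h1, h2, h3⟩ := ih hsc hcard (h4c.mono hRc.1) (reach_pairs hsc h4c hpc hyD)
            (x := y) (mem_reach_self _ hyD) ⟨z, hRc.2 y (mem_reach_self _ hyD) z hz hyz, hyz⟩
          refine ⟨f, hRT hf, h1, fun a ha hfa b hb hab => ?_⟩
          have haR := hRc.2 f hf a ha hfa
          exact h3 a haR hfa b (hRc.2 a haR b hb hab) hab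
        obtain ⟨f1, hf1, k1, k2⟩ := step S hS ⟨y2, hy2⟩ y1 hy1
        obtain ⟨f2, hf2, l1, l2⟩ := step (D \ S) (hS.compl hsc)
          ⟨y1, hS.1 hy1, fun h => h.2 hy1⟩ y2 hy2
        have hf1D := hS.1 hf1
        have hf12 : ¬ Co A f1 f2 := fun h => hf2.2 (hS.2 f1 hf1 f2 hf2.1 h)
        obtain ⟨g, hg, m1, m2, m3, m4⟩ := hpc f1 hf1D f2 hf2.1 (by tauto) (by tauto)
        have hg1 : ¬ Co A g f1 := by tauto
        have hg2 : ¬ Co A g f2 := by tauto
        obtain ⟨y, hy, hgy⟩ := hnf g hg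
        have hgy' : Co A g y := hgy
        by_cases e1 : Co A f1 y
        · exact hg1 (hsc _ _ (k2 y hy e1 g hg (hsc _ _ hgy')))
        · by_cases e2 : Co A f2 y
          · exact hg2 (hsc _ _ (l2 y hy e2 g hg (hsc _ _ hgy')))
          · exact e1 ((m4 y hy (by tauto)).mp hgy')
    · -- not connected: pass to the component
      have hRc := reach_closed hs h4 hx
      have hcard : (Reach A D x).ncard ≤ n := by
        have : (Reach A D x).ncard < D.ncard :=
          Set.ncard_lt_ncard (lt_of_le_of_ne hRc.1 hK) (Set.toFinite D)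
        omega
      obtain ⟨y, hy, hxy⟩ := hxn
      obtain ⟨f, hf, h1, h2, h3⟩ := ih hs hcard (h4.mono hRc.1) (reach_pairs hs h4 hp hx)
        (x := x) (mem_reach_self _ hx) ⟨y, hRc.2 x (mem_reach_self _ hx) y hy hxy, hxy⟩
      refine ⟨f, hRc.1 hf, h1, h2, fun a ha hfa b hb hab => ?_⟩
      have haR := hRc.2 f hf a ha hfa
      exact h3 a haR hfa b (hRc.2 a haR b hb hab) hab

theorem full_comp {A : V → V → Prop} (hs : ∀ x y, A x y → A y x) {D : Set V}
    (h4 : NoP4 A D) (hp : PairsIn A D) {x : V} (hx : x ∈ D) (hxn : ∃ y ∈ D, A x y) :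
    ∃ f ∈ D, A f f ∧ A f x ∧ ∀ y ∈ D, A f y → ∀ z ∈ D, A y z → A f z :=
  full_of_component D.ncard hs le_rfl h4 hp hx hxn

/-- Claim A: a nonempty P4-free set with midpoints has an isolated or a full vertex. -/
theorem claimA {A : V → V → Prop} (hs : ∀ x y, A x y → A y x) {D : Set V}
    (h4 : NoP4 A D) (hp : PairsIn A D) (hne : D.Nonempty) :
    (∃ g ∈ D, ∀ y ∈ D, ¬ A g y) ∨ (∃ g ∈ D, ∀ y ∈ D, A g y) := by
  by_cases hiso : ∃ g ∈ D, ∀ y ∈ D, ¬ A g y
  · exact Or.inl hiso
  right
  push Not at hiso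
  obtain ⟨x, hx⟩ := hne
  obtain ⟨f1, hf1, k0, _, k2⟩ := full_comp hs h4 hp hx (hiso x hx)
  by_cases hf : ∀ y ∈ D, A f1 y
  · exact ⟨f1, hf1, hf⟩
  push Not at hf
  obtain ⟨x2, hx2, hfx2⟩ := hf
  obtain ⟨f2, hf2, l0, l1, l2⟩ := full_comp hs h4 hp hx2 (hiso x2 hx2)
  have h12 : ¬ A f1 f2 := fun h => hfx2 (k2 f2 hf2 h x2 hx2 l1)
  obtain ⟨g, hg, m1, m2, m3, m4⟩ := hp f1 hf1 f2 hf2 (by tauto) (by tauto)
  have hg1 : ¬ A g f1 := by tauto
  have hg2 : ¬ A g f2 := by tauto
  obtain ⟨y, hy, hgy⟩ := hiso g hg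
  exfalso
  by_cases e1 : A f1 y
  · exact hg1 (hs _ _ (k2 y hy e1 g hg (hs _ _ hgy)))
  · by_cases e2 : A f2 y
    · exact hg2 (hs _ _ (l2 y hy e2 g hg (hs _ _ hgy)))
    · exact e1 ((m4 y hy (by tauto)).mp hgy)

end Pool.Agent.H43.P3
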