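import Pool.Agent.H43.P3.ClaimB

/-! The core lemma of helper44's proof: a minimal cylinder contains a path with loops 0,1,1,0
and no bad vertex. -/

namespace Pool.Agent.H43.P3

open Classical

variable {V : Type*}

/-- `g` sees exactly `{a,b}`, `{a,c}`, `{b,d}` or `{c,d}`. -/
def Bad (A : V → V → Prop) (a b c d g : V) : Prop :=
  (A g a ∧ A g b ∧ ¬ A g c ∧ ¬ A g d) ∨ (A g a ∧ ¬ A g b ∧ A g c ∧ ¬ A g d) ∨
  (¬ A g a ∧ A g b ∧ ¬ A g c ∧ A g d) ∨ (¬ A g a ∧ ¬ A g b ∧ A g c ∧ A g d)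

/-- Every vertex not constant on `C` splits `C` into two P4-free parts. -/
def Min (A : V → V → Prop) (C : Set V) : Prop :=
  ∀ w ∈ C, (∃ y ∈ C, A w y) → (∃ y ∈ C, ¬ A w y) →
    NoP4 A {y | y ∈ C ∧ A w y} ∧ NoP4 A {y | y ∈ C ∧ ¬ A w y}

theorem pairs_nbr {A : V → V → Prop} (hs : ∀ x y, A x y → A y x) {C : Set V} (hp : PairsIn A C)
    {w : V} (hw : w ∈ C) : PairsIn A {y | y ∈ C ∧ A w y} := by
  rintro u ⟨hu, hu'⟩ v ⟨hv, hv'⟩ h1 h2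
  obtain ⟨g, hg, k1, k2, k3, k4⟩ := hp u hu v hv h1 h2
  have e1 := hs _ _ hu'
  have e2 := hs _ _ hv'
  exact ⟨g, ⟨hg, hs _ _ ((k4 w hw (by tauto)).mpr e1)⟩, k1, k2, k3, fun y hy => k4 y hy.1⟩

theorem pairs_non {A : V → V → Prop} (hs : ∀ x y, A x y → A y x) {C : Set V} (hp : PairsIn A C)
    {w : V} (hw : w ∈ C) : PairsIn A {y | y ∈ C ∧ ¬ A w y} := by
  rintro u ⟨hu, hu'⟩ v ⟨hv, hv'⟩ h1 h2
  obtain ⟨g, hg, k1, k2, k3, k4⟩ := hp u hu v hv h1 h2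
  have e1 : ¬ A u w := fun h => hu' (hs _ _ h)
  have e2 : ¬ A v w := fun h => hv' (hs _ _ h)
  refine ⟨g, ⟨hg, fun h => e1 ((k4 w hw (by tauto)).mp (hs _ _ h))⟩, k1, k2, k3, fun y hy => k4 y hy.1⟩

variable [Finite V]

/-- (1) -/
theorem plus {A : V → V → Prop} (hs : ∀ x y, A x y → A y x) {C : Set V} (hp : PairsIn A C)
    (hm : Min A C) {w : V} (hw : w ∈ C) (h0 : ¬ A w w) (hn : ∃ y ∈ C, A w y) :
    ∃ x ∈ C, A x x ∧ A x w ∧ ∀ y ∈ C, A w y → A x y := by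
  obtain ⟨y, hy, hwy⟩ := hn
  have h4 := (hm w hw ⟨y, hy, hwy⟩ ⟨w, hw, h0⟩).1
  rcases claimA hs h4 (pairs_nbr hs hp hw) ⟨y, hy, hwy⟩ with ⟨x, ⟨hx, hwx⟩, h⟩ | ⟨x, ⟨hx, hwx⟩, h⟩
  · exfalso
    have hxx : ¬ A x x := h x ⟨hx, hwx⟩
    obtain ⟨g, hg, k1, k2, k3, k4⟩ := hp w hw x hx (by tauto) (by tauto)
    have hgg : A g g := by tauto
    have hgw : A g w := by tauto
    have hgx : A g x := by tauto
    exact h g ⟨hg, hs _ _ hgw⟩ (hs _ _ hgx)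
  · exact ⟨x, hx, h x ⟨hx, hwx⟩, hs _ _ hwx, fun y hy hwy => h y ⟨hy, hwy⟩⟩

/-- (2) -/
theorem two {A : V → V → Prop} (hs : ∀ x y, A x y → A y x) {C : Set V} (hp : PairsIn A C)
    (hm : Min A C) {b c : V} (hb : b ∈ C) (hc : c ∈ C) (hbc : A b c) (hcc : A c c)
    (hn : ∃ y ∈ C, A b y ∧ ¬ A c y) :
    ∃ a ∈ C, ¬ A a a ∧ A b a ∧ ¬ A c a ∧ ∀ y ∈ C, A b y → ¬ A c y → ¬ A a y := by
  obtain ⟨y, hy, hby, hcy⟩ := hn
  have h4 := (hm c hc ⟨c, hc, hcc⟩ ⟨y, hy, hcy⟩).2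
  have hbE : ∀ z, z ∈ {y | y ∈ C ∧ ¬ A c y} → z ∈ C := fun z hz => hz.1
  -- D = N(b) - N(c)
  have hpD : PairsIn A {y | y ∈ C ∧ A b y ∧ ¬ A c y} := by
    rintro u ⟨hu, hu1, hu2⟩ v ⟨hv, hv1, hv2⟩ h1 h2
    obtain ⟨g, hg, k1, k2, k3, k4⟩ := hp u hu v hv h1 h2
    have e1 := hs _ _ hu1
    have e2 := hs _ _ hv1
    have e3 : ¬ A u c := fun h => hu2 (hs _ _ h)
    have e4 : ¬ A v c := fun h => hv2 (hs _ _ h)
    exact ⟨g, ⟨hg, hs _ _ ((k4 b hb (by tauto)).mpr e1),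
      fun h => e3 ((k4 c hc (by tauto)).mp (hs _ _ h))⟩, k1, k2, k3, fun y hy => k4 y hy.1⟩
  have h4D : NoP4 A {y | y ∈ C ∧ A b y ∧ ¬ A c y} := h4.mono (fun z hz => ⟨hz.1, hz.2.2⟩)
  rcases claimA hs h4D hpD ⟨y, hy, hby, hcy⟩ with ⟨a, ⟨ha, ha1, ha2⟩, h⟩ | ⟨a, ⟨ha, ha1, ha2⟩, h⟩
  · exact ⟨a, ha, h a ⟨ha, ha1, ha2⟩, ha1, ha2, fun y hy h1 h2 => h y ⟨hy, h1, h2⟩⟩
  · exfalso
    have haa : A a a := h a ⟨ha, ha1, ha2⟩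
    have hac : ¬ A a c := fun h' => ha2 (hs _ _ h')
    obtain ⟨g, hg, k1, k2, k3, k4⟩ := hp a ha c hc (by tauto) (by tauto)
    have hga : ¬ A g a := by tauto
    have hgc : ¬ A g c := by tauto
    have e1 := hs _ _ ha1
    have e2 := hs _ _ hbc
    have hgb : A g b := (k4 b hb (by tauto)).mpr e1
    exact hga (hs _ _ (h g ⟨hg, hs _ _ hgb, fun h' => hgc (hs _ _ h')⟩))

/-- Core lemma without a full vertex. -/
theorem core_nofull {A : V → V → Prop} (hs : ∀ x y, A x y → A y x) {C : Set V}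
    (hp : PairsIn A C) (hm : Min A C) (h4 : ¬ NoP4 A C) (hnf : ∀ f ∈ C, ∃ y ∈ C, ¬ A f y) :
    ∃ a ∈ C, ∃ b ∈ C, ∃ c ∈ C, ∃ d ∈ C, (A a b ∧ A b c ∧ A c d ∧ ¬ A a c ∧ ¬ A b d ∧ ¬ A a d) ∧
      (¬ A a a ∧ A b b ∧ A c c ∧ ¬ A d d) ∧ ∀ g ∈ C, ¬ Bad A a b c d g := by
  -- an edge exists
  unfold NoP4 at h4
  push Not at h4
  obtain ⟨a0, ha0, b0, hb0, c0, hc0, d0, hd0, e1, e2, e3, e4, e5, e6, -⟩ := h4
  have hfin : C.Finite := Set.toFinite C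
  -- b with maximal neighbourhood
  obtain ⟨b, hb, hbmax⟩ := Set.exists_max_image C (fun w => ({y | y ∈ C ∧ A w y} : Set V).ncard)
    hfin ⟨a0, ha0⟩
  have hbn : ∃ y ∈ C, A b y := by
    by_contra hcon
    push Not at hcon
    have h0 : ({y | y ∈ C ∧ A b y} : Set V).ncard = 0 := by
      rw [Set.ncard_eq_zero (Set.toFinite _)]
      ext y; simp only [Set.mem_setOf_eq, Set.mem_empty_iff_false, iff_false, not_and]
      exact hcon y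
    have h1 := hbmax a0 ha0
    have h2 : 0 < ({y | y ∈ C ∧ A a0 y} : Set V).ncard :=
      (Set.ncard_pos (Set.toFinite _)).mpr ⟨b0, hb0, e1⟩
    omega
  have hmax : ∀ w ∈ C, (∀ y ∈ C, A b y → A w y) → ∀ y ∈ C, A w y → A b y := by
    intro w hw hsub y hy hwy
    by_contra hby
    have h1 := hbmax w hw
    have h2 : ({y | y ∈ C ∧ A b y} : Set V).ncard < ({y | y ∈ C ∧ A w y} : Set V).ncard := by
      apply Set.ncard_lt_ncard _ (Set.toFinite _)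
      refine ⟨fun z hz => ⟨hz.1, hsub z hz.1 hz.2⟩, fun h => hby (h ⟨hy, hwy⟩).2⟩
    omega
  have hbb : A b b := by
    by_contra hbb
    obtain ⟨x, hx, h1, h2, h3⟩ := plus hs hp hm hb hbb hbn
    exact hbb (hmax x hx h3 b hb h2)
  obtain ⟨hbN, hbC⟩ := hm b hb hbn (hnf b hb)
  -- an edge from N(b) to outside
  have hedge : ∃ y ∈ C, A b y ∧ ∃ z ∈ C, ¬ A b z ∧ A y z := by
    by_contra hcon
    push Not at hcon
    by_cases h : A b a0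
    · have f1 : A b b0 := by by_contra h'; exact hcon a0 ha0 h b0 hb0 h' e1
      have f2 : A b c0 := by by_contra h'; exact hcon b0 hb0 f1 c0 hc0 h' e2
      have f3 : A b d0 := by by_contra h'; exact hcon c0 hc0 f2 d0 hd0 h' e3
      exact hbN a0 ⟨ha0, h⟩ b0 ⟨hb0, f1⟩ c0 ⟨hc0, f2⟩ d0 ⟨hd0, f3⟩ e1 e2 e3 e4 e5 e6
    · have f1 : ¬ A b b0 := fun h' => hcon b0 hb0 h' a0 ha0 h (hs _ _ e1)
      have f2 : ¬ A b c0 := fun h' => hcon c0 hc0 h' b0 hb0 f1 (hs _ _ e2)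
      have f3 : ¬ A b d0 := fun h' => hcon d0 hd0 h' c0 hc0 f2 (hs _ _ e3)
      exact hbC a0 ⟨ha0, h⟩ b0 ⟨hb0, f1⟩ c0 ⟨hc0, f2⟩ d0 ⟨hd0, f3⟩ e1 e2 e3 e4 e5 e6
  -- (3)
  have h3 : ∃ d ∈ C, ¬ A d d ∧ ¬ A b d ∧ (∃ y ∈ C, A d y) ∧ ∀ y ∈ C, A d y → A b y := by
    obtain ⟨y, hy, hby, z, hz, hbz, hyz⟩ := hedge
    obtain ⟨c, hc, hcc, hcb, hcz⟩ : ∃ c ∈ C, A c c ∧ A c b ∧ A c z := by
      by_cases hyy : A y y
      · exact ⟨y, hy, hyy, hs _ _ hby, hyz⟩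
      · obtain ⟨x, hx, h1, h2, h3⟩ := plus hs hp hm hy hyy ⟨z, hz, hyz⟩
        exact ⟨x, hx, h1, h3 b hb (hs _ _ hby), h3 z hz hyz⟩
    obtain ⟨d', hd', g1, g2, g3, g4⟩ := two hs hp hm hc hb hcb hbb ⟨z, hz, hcz, hbz⟩
    obtain ⟨q, hq, q1, q2, q3⟩ := plus hs hp hm hd' g1 ⟨c, hc, hs _ _ g2⟩
    have hqc : A q c := q3 c hc (hs _ _ g2)
    have hbq : A b q := by
      by_contra h
      exact g4 q hq (hs _ _ hqc) h (hs _ _ q2)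
    by_cases hsub : ∀ y ∈ C, A d' y → A b y
    · exact ⟨d', hd', g1, g3, ⟨c, hc, hs _ _ g2⟩, hsub⟩
    · push Not at hsub
      obtain ⟨t, ht, hdt, hbt⟩ := hsub
      obtain ⟨f, ⟨hf, hbf⟩, f1, f2, f3⟩ := full_comp hs hbC (pairs_non hs hp hb) (x := d')
        ⟨hd', g3⟩ ⟨t, ⟨ht, hbt⟩, hdt⟩
      have hfb : ¬ A f b := fun h => hbf (hs _ _ h)
      obtain ⟨g, hg, k1, k2, k3, k4⟩ := hp f hf b hb (by tauto) (by tauto)
      have hgg : ¬ A g g := by tauto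
      have hgf : ¬ A g f := by tauto
      have hgb : ¬ A g b := by tauto
      have hbg : ¬ A b g := fun h => hgb (hs _ _ h)
      have hfq : A f q := hs _ _ (q3 f hf (hs _ _ f2))
      refine ⟨g, hg, hgg, hbg, ⟨q, hq, (k4 q hq (by tauto)).mpr hfq⟩, fun t ht hgt => ?_⟩
      by_contra hbt
      by_cases hft : A f t
      · exact hgf (hs _ _ (f3 t ⟨ht, hbt⟩ hft g ⟨hg, hbg⟩ (hs _ _ hgt)))
      · exact hft ((k4 t ht (by tauto)).mp hgt)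
  obtain ⟨d, hd, d1, d2, d3, d4⟩ := h3
  -- (4)
  obtain ⟨c, hc, c1, c2, c3⟩ := plus hs hp hm hd d1 d3
  have hbc : A b c := d4 c hc (hs _ _ c2)
  have hnb : ∃ y ∈ C, A b y ∧ ¬ A c y := by
    by_contra hcon
    push Not at hcon
    exact d2 (hmax c hc hcon d hd c2)
  obtain ⟨a, ha, a1, a2, a3, a4⟩ := two hs hp hm hb hc hbc c1 hnb
  have had : ¬ A a d := fun h => a3 (c3 a ha (hs _ _ h))
  refine ⟨a, ha, b, hb, c, hc, d, hd,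
    ⟨hs _ _ a2, hbc, c2, fun h => a3 (hs _ _ h), d2, had⟩, ⟨a1, hbb, c1, d1⟩, ?_⟩
  -- (5)
  rintro g hg (⟨ga, gb, gc, gd⟩ | ⟨ga, gb, gc, gd⟩ | ⟨ga, gb, gc, gd⟩ | ⟨ga, gb, gc, gd⟩)
  · exact a4 g hg (hs _ _ gb) (fun h => gc (hs _ _ h)) (hs _ _ ga)
  · -- {a,c}
    have hE := (hm d hd d3 ⟨d, hd, d1⟩).2
    have hdb : ¬ A d b := fun h => d2 (hs _ _ h)
    have hda : ¬ A d a := fun h => had (hs _ _ h)
    have hdg : ¬ A d g := fun h => gd (hs _ _ h)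
    obtain ⟨f, ⟨hf, hdf⟩, f1, f2, f3⟩ := full_comp hs hE (pairs_non hs hp hd) (x := b)
      ⟨hb, hdb⟩ ⟨b, ⟨hb, hdb⟩, hbb⟩
    have hfa : A f a := f3 b ⟨hb, hdb⟩ f2 a ⟨ha, hda⟩ a2
    have hfg : A f g := f3 a ⟨ha, hda⟩ hfa g ⟨hg, hdg⟩ (hs _ _ ga)
    have hfc : A f c := by
      by_contra h
      exact a4 f hf (hs _ _ f2) (fun h' => h (hs _ _ h')) (hs _ _ hfa)
    have hv : ∃ v ∈ C, A d v ∧ ¬ A f v := by
      by_contra hcon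
      push Not at hcon
      refine gb (hs _ _ (hmax f hf (fun y hy hby => ?_) g hg hfg))
      by_cases h : A d y
      · exact hcon y hy h
      · exact f3 b ⟨hb, hdb⟩ f2 y ⟨hy, h⟩ hby
    obtain ⟨v, hv, v1, v2⟩ := hv
    have hcN := (hm c hc ⟨c, hc, c1⟩ ⟨a, ha, a3⟩).1
    exact hcN f ⟨hf, hs _ _ hfc⟩ b ⟨hb, hs _ _ hbc⟩ v ⟨hv, c3 v hv v1⟩ d ⟨hd, c2⟩
      f2 (d4 v hv v1) (hs _ _ v1) v2 d2 (fun h => hdf (hs _ _ h))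
  · exact gc (hs _ _ (c3 g hg (hs _ _ gd)))
  · exact gb (hs _ _ (d4 g hg (hs _ _ gd)))

theorem Min.co {A : V → V → Prop} (hs : ∀ x y, A x y → A y x) {C : Set V} (hm : Min A C) :
    Min (Co A) C := by
  rintro w hw ⟨y, hy, h1⟩ ⟨z, hz, h2⟩
  have h2' : A w z := not_not.mp h2
  obtain ⟨k1, k2⟩ := hm w hw ⟨z, hz, h2'⟩ ⟨y, hy, h1⟩
  refine ⟨(k2.co hs), ?_⟩
  have : {y | y ∈ C ∧ ¬ Co A w y} = {y | y ∈ C ∧ A w y} := by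
    ext t; simp [Co]
  rw [this]
  exact k1.co hs

/-- Core lemma. -/
theorem core {A : V → V → Prop} (hs : ∀ x y, A x y → A y x) {C : Set V}
    (hp : PairsIn A C) (hm : Min A C) (h4 : ¬ NoP4 A C) :
    ∃ a ∈ C, ∃ b ∈ C, ∃ c ∈ C, ∃ d ∈ C, (A a b ∧ A b c ∧ A c d ∧ ¬ A a c ∧ ¬ A b d ∧ ¬ A a d) ∧
      (¬ A a a ∧ A b b ∧ A c c ∧ ¬ A d d) ∧ ∀ g ∈ C, ¬ Bad A a b c d g := by
  by_cases hf : ∃ f ∈ C, ∀ y ∈ C, A f y
  · obtain ⟨f, hf, hf'⟩ := hf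
    have h4' : ¬ NoP4 (Co A) C := by
      intro h
      apply h4
      have := h.co (Co.symm hs)
      rwa [co_co] at this
    have hnf : ∀ z ∈ C, ∃ y ∈ C, ¬ Co A z y := fun z hz =>
      ⟨f, hf, fun h => h (hs _ _ (hf' z hz))⟩
    obtain ⟨a, ha, b, hb, c, hc, d, hd, ⟨k1, k2, k3, k4, k5, k6⟩, ⟨l1, l2, l3, l4⟩, hbad⟩ :=
      core_nofull (Co.symm hs) hp.co (hm.co hs) h4' hnf
    unfold Co at *
    have hs' : ∀ x y, A x y ↔ A y x := fun x y => ⟨hs x y, hs y x⟩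
    refine ⟨b, hb, d, hd, a, ha, c, hc, ⟨not_not.mp k5, ?_, not_not.mp k4, ?_, ?_, k2⟩,
      ⟨l2, not_not.mp l4, not_not.mp l1, l3⟩, ?_⟩
    · rw [hs']; exact not_not.mp k6
    · rw [hs']; exact k1
    · rw [hs']; exact k3
    · intro g hg hB
      apply hbad g hg
      unfold Bad at *
      tauto
  · push Not at hf
    exact core_nofull hs hp hm h4 hf

end Pool.Agent.H43.P3
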