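import Pool.Agent.H43.P3.Core
import Pool.Agent.H17.P3.Defs

/-! The matrix statement (P3) of helper17 from the core lemma: the minimal cylinder. -/

namespace Pool.Agent.H43.P3

open Classical

/-- Sets closed under agreement wherever the four agree (all cylinders are). -/
def Cyl {V : Type*} (A : V → V → Prop) (C : Set V) : Prop :=
  ∀ a ∈ C, ∀ b ∈ C, ∀ c ∈ C, ∀ d ∈ C, ∀ g,
    (∀ y, (A a y ↔ A b y) → (A a y ↔ A c y) → (A a y ↔ A d y) → (A g y ↔ A a y)) → g ∈ C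

theorem Cyl.nbr {V : Type*} {A : V → V → Prop} (hs : ∀ x y, A x y → A y x) {C : Set V}
    (h : Cyl A C) (w : V) : Cyl A {y | y ∈ C ∧ A w y} := by
  rintro a ⟨ha, a1⟩ b ⟨hb, b1⟩ c ⟨hc, c1⟩ d ⟨hd, d1⟩ g hg
  have e1 := hs _ _ a1
  have e2 := hs _ _ b1
  have e3 := hs _ _ c1
  have e4 := hs _ _ d1
  exact ⟨h a ha b hb c hc d hd g hg, hs _ _ ((hg w (by tauto) (by tauto) (by tauto)).mpr e1)⟩

theorem Cyl.non {V : Type*} {A : V → V → Prop} (hs : ∀ x y, A x y → A y x) {C : Set V}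
    (h : Cyl A C) (w : V) : Cyl A {y | y ∈ C ∧ ¬ A w y} := by
  rintro a ⟨ha, a1⟩ b ⟨hb, b1⟩ c ⟨hc, c1⟩ d ⟨hd, d1⟩ g hg
  have e1 : ¬ A a w := fun h => a1 (hs _ _ h)
  have e2 : ¬ A b w := fun h => b1 (hs _ _ h)
  have e3 : ¬ A c w := fun h => c1 (hs _ _ h)
  have e4 : ¬ A d w := fun h => d1 (hs _ _ h)
  exact ⟨h a ha b hb c hc d hd g hg,
    fun h => e1 ((hg w (by tauto) (by tauto) (by tauto)).mp (hs _ _ h))⟩

theorem exists_min {V : Type*} [Finite V] {A : V → V → Prop} (hs : ∀ x y, A x y → A y x)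
    (h4 : ¬ NoP4 A Set.univ) : ∃ C, Cyl A C ∧ ¬ NoP4 A C ∧ Min A C := by
  have hne : {C : Set V | Cyl A C ∧ ¬ NoP4 A C}.Nonempty :=
    ⟨Set.univ, fun _ _ _ _ _ _ _ _ _ _ => Set.mem_univ _, h4⟩
  obtain ⟨C, hC, hmin⟩ := Set.exists_min_image _ (fun C : Set V => C.ncard) (Set.toFinite _) hne
  refine ⟨C, hC.1, hC.2, fun w hw h1 h2 => ⟨?_, ?_⟩⟩
  · by_contra hcon
    have h3 := hmin _ ⟨hC.1.nbr hs w, hcon⟩
    obtain ⟨y, hy, hwy⟩ := h2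
    have h4 : ({y | y ∈ C ∧ A w y} : Set V).ncard < C.ncard :=
      Set.ncard_lt_ncard ⟨fun z hz => hz.1, fun h => hwy (h hy).2⟩ (Set.toFinite _)
    omega
  · by_contra hcon
    have h3 := hmin _ ⟨hC.1.non hs w, hcon⟩
    obtain ⟨y, hy, hwy⟩ := h1
    have h4 : ({y | y ∈ C ∧ ¬ A w y} : Set V).ncard < C.ncard :=
      Set.ncard_lt_ncard ⟨fun z hz => hz.1, fun h => (h hy).2 hwy⟩ (Set.toFinite _)
    omega

private theorem z1 : ∀ x : ZMod 2, (x = 0 ↔ ¬ x = 1) := by decide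
private theorem z2 : ∀ x y : ZMod 2, (x = y ↔ (x = 1 ↔ y = 1)) := by decide
private theorem z3 : ∀ a b c d : ZMod 2,
    ((a ≠ d ∧ b ≠ c) → ((a = 1 ∧ b = 1 ∧ ¬ c = 1 ∧ ¬ d = 1) ∨ (a = 1 ∧ ¬ b = 1 ∧ c = 1 ∧ ¬ d = 1) ∨
      (¬ a = 1 ∧ b = 1 ∧ ¬ c = 1 ∧ d = 1) ∨ (¬ a = 1 ∧ ¬ b = 1 ∧ c = 1 ∧ d = 1))) := by decide

open Pool.Agent.H17.P3 in
/-- **(P3)** -/
theorem p3 : Pool.Agent.H17.P3.P3 := by
  intro X _ M hsym hpairs hsplit a0 b0 c0 d0 h0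
  let A : X → X → Prop := fun x y => M x y = 1
  have hs : ∀ x y, A x y → A y x := fun x y h => by show M y x = 1; rw [hsym]; exact h
  have h4 : ¬ NoP4 A Set.univ := by
    intro h
    refine h a0 trivial b0 trivial c0 trivial d0 trivial h0.ab h0.bc h0.cd ?_ ?_ ?_
    · exact (z1 _).mp h0.ac
    · exact (z1 _).mp h0.bd
    · exact (z1 _).mp h0.ad
  obtain ⟨C, hC, h4C, hmin⟩ := exists_min hs h4
  have hp : PairsIn A C := by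
    intro u hu v hv h1 h2
    obtain ⟨g, g1, g2, g3, g4⟩ := hpairs u v ((z2 _ _).mpr h1) (fun h => h2 ((z2 _ _).mp h))
    refine ⟨g, ?_, fun h => g1 ((z2 _ _).mpr h), (z2 _ _).mp g2, (z2 _ _).mp g3,
      fun y _ hy => (z2 _ _).mp (g4 y ((z2 _ _).mpr hy))⟩
    exact hC u hu v hv u hu u hu g (fun y hy _ _ => (z2 _ _).mp (g4 y ((z2 _ _).mpr hy)))
  obtain ⟨a, ha, b, hb, c, hc, d, hd, ⟨k1, k2, k3, k4, k5, k6⟩, ⟨l1, l2, l3, l4⟩, hbad⟩ :=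
    core hs hp hmin h4C
  obtain ⟨g, hg, hg'⟩ := hsplit a b c d
    ⟨k1, k2, k3, (z1 _).mpr k4, (z1 _).mpr k6, (z1 _).mpr k5⟩ ((z1 _).mpr l1) l2 l3 ((z1 _).mpr l4)
  refine hbad g (hC a ha b hb c hc d hd g fun y e1 e2 e3 => ?_) (z3 _ _ _ _ hg)
  exact (z2 _ _).mp (hg' y ((z2 _ _).mpr e1) ((z2 _ _).mpr e2) ((z2 _ _).mpr e3))

end Pool.Agent.H43.P3
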